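import Mathlib

/-!
# The number of distinct shortest-cover lengths over all cyclic shifts is `O(log n)`
-/

namespace Pool.Agent.CyCo

universe u

variable {α : Type u} {X : ℤ → α}

theorem emod_le_self' {a b : ℤ} (ha : 0 ≤ a) (hb : 0 < b) : a % b ≤ a := by
  have h1 := Int.emod_add_mul_ediv a b
  have h2 := Int.ediv_nonneg ha hb.le
  nlinarith

/-! ### Periods of bi-infinite words on integer intervals -/

/-- `X` has period `d` on the interval `[a, b)`. -/
def Per (X : ℤ → α) (a b d : ℤ) : Prop :=
  ∀ x, a ≤ x → x + d < b → X x = X (x + d)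

theorem Per.app {a b d : ℤ} (h : Per X a b d) {x y : ℤ} (hx : a ≤ x) (hy : y < b)
    (hxy : y = x + d) : X x = X y := by
  subst hxy
  exact h x hx hy

theorem Per.mono {a b a' b' d : ℤ} (h : Per X a b d) (h1 : a ≤ a') (h2 : b' ≤ b) :
    Per X a' b' d := fun x hx hx' => h x (by omega) (by omega)

theorem Per.iter {a b d : ℤ} (h : Per X a b d) (hd : 0 < d) {x : ℤ} (hx : a ≤ x) (k : ℕ) :
    x + k * d < b → X x = X (x + k * d) := by
  induction k with
  | zero => intro _; simp
  | succ k ih =>
    intro hk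
    have e : x + ((k + 1 : ℕ) : ℤ) * d = (x + k * d) + d := by push_cast; ring
    rw [e] at hk ⊢
    have h0 : (0 : ℤ) ≤ (k : ℤ) * d := by positivity
    rw [ih (by omega)]
    exact h _ (by omega) hk

theorem Per.congr {a b d : ℤ} (h : Per X a b d) (hd : 0 < d) {x y : ℤ} (hx : a ≤ x)
    (hx' : x < b) (hy : a ≤ y) (hy' : y < b) (hdvd : d ∣ y - x) : X x = X y := by
  obtain ⟨m, hm⟩ := hdvd
  rcases le_total 0 m with h0 | h0
  · lift m to ℕ using h0
    have e : y = x + m * d := by linarith [mul_comm d (m : ℤ)]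
    rw [e] at hy' ⊢
    exact h.iter hd hx m hy'
  · obtain ⟨k, hk⟩ := Int.exists_eq_neg_ofNat h0
    have e : x = y + k * d := by rw [hk] at hm; linarith [mul_comm d (k : ℤ)]
    rw [e] at hx' ⊢
    exact (h.iter hd hy k hx').symm

theorem Per.ext {a b a' b' p g : ℤ} (hp : Per X a b p) (hg : Per X a' b' g) (hp0 : 0 < p)
    (hg0 : 0 < g) (ha : a ≤ a') (hb : b' ≤ b) (hlen : p ≤ b' - a') (hdvd : g ∣ p) :
    Per X a b g := by
  intro x hx hxg
  have r1 := Int.emod_nonneg (x - a') hp0.ne'
  have r2 := Int.emod_lt_of_pos (x - a') hp0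
  have r3 := Int.emod_nonneg (x + g - a') hp0.ne'
  have r4 := Int.emod_lt_of_pos (x + g - a') hp0
  have q1 := Int.emod_add_mul_ediv (x - a') p
  have q2 := Int.emod_add_mul_ediv (x + g - a') p
  have e1 : X x = X (a' + (x - a') % p) := by
    apply hp.congr hp0 hx (by omega) (by omega) (by omega)
    exact ⟨-((x - a') / p), by linear_combination q1⟩
  have e2 : X (x + g) = X (a' + (x + g - a') % p) := by
    apply hp.congr hp0 (by omega) (by omega) (by omega) (by omega)
    exact ⟨-((x + g - a') / p), by linear_combination q2⟩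
  rw [e1, e2]
  apply hg.congr hg0 (by omega) (by omega) (by omega) (by omega)
  obtain ⟨w, hw⟩ := hdvd
  refine ⟨1 + w * ((x - a') / p) - w * ((x + g - a') / p), ?_⟩
  have e3 : (x - a') % p = x - a' - p * ((x - a') / p) := by linarith
  have e4 : (x + g - a') % p = x + g - a' - p * ((x + g - a') / p) := by linarith
  rw [e3, e4]
  generalize (x - a') / p = A
  generalize (x + g - a') / p = B
  rw [hw]
  ring

theorem Per.union {a b a' b' g : ℤ} (h1 : Per X a b g) (h2 : Per X a' b' g)
    (hov : a' + g ≤ b) : Per X a b' g := by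
  intro x hx hxg
  by_cases h : x + g < b
  · exact h1 x hx h
  · exact h2 x (by omega) hxg

theorem fineWilf : ∀ (n p q : ℕ), p + q ≤ n → 0 < p → 0 < q → ∀ (a b : ℤ),
    Per X a b p → Per X a b q → (p : ℤ) + q ≤ b - a → Per X a b (Nat.gcd p q : ℕ) := by
  intro n
  induction n with
  | zero => intro p q h hp; omega
  | succ n ih =>
    have key : ∀ (p q : ℕ), p + q ≤ n + 1 → 0 < p → p < q → ∀ (a b : ℤ),
        Per X a b p → Per X a b q → (p : ℤ) + q ≤ b - a → Per X a b (Nat.gcd p q : ℕ) := by
      intro p q h hp hpq a b hP hQ hlen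
      have h1 : Per X a (b - p) ((q - p : ℕ) : ℤ) := by
        intro x hx hx'
        have hc : ((q - p : ℕ) : ℤ) = (q : ℤ) - p := by omega
        rw [hc] at hx' ⊢
        rw [hQ.app (x := x) (y := x + q) hx (by omega) rfl]
        exact (hP.app (x := x + (q - p)) (y := x + q) (by omega) (by omega) (by ring)).symm
      have h2 := ih p (q - p) (by omega) hp (by omega) a (b - p)
        (hP.mono le_rfl (by omega)) h1 (by omega)
      have hgcd : Nat.gcd p (q - p) = Nat.gcd p q := by
        have := Nat.gcd_sub_self_right hpq.le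
        exact this
      rw [hgcd] at h2
      refine hP.ext h2 (by exact_mod_cast hp) ?_ le_rfl (by omega) (by omega) ?_
      · exact_mod_cast Nat.gcd_pos_of_pos_left q hp
      · exact_mod_cast Nat.gcd_dvd_left p q
    intro p q h hp hq a b hP hQ hlen
    rcases lt_trichotomy p q with h0 | h0 | h0
    · exact key p q h hp h0 a b hP hQ hlen
    · subst h0
      rw [Nat.gcd_self]; exact hP
    · rw [Nat.gcd_comm]
      exact key q p (by omega) hq h0 a b hQ hP (by omega)

/-- Integer form of the (weak) Fine–Wilf theorem. -/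
theorem fineWilf' {p q a b : ℤ} (hp : 0 < p) (hq : 0 < q) (hP : Per X a b p) (hQ : Per X a b q)
    (hlen : p + q ≤ b - a) :
    ∃ g : ℤ, 0 < g ∧ g ∣ p ∧ g ∣ q ∧ g ≤ p ∧ g ≤ q ∧ Per X a b g := by
  lift p to ℕ using hp.le
  lift q to ℕ using hq.le
  have hp' : 0 < p := by exact_mod_cast hp
  have hq' : 0 < q := by exact_mod_cast hq
  refine ⟨(Nat.gcd p q : ℕ), ?_, ?_, ?_, ?_, ?_, fineWilf (p + q) p q le_rfl hp' hq' a b hP hQ hlen⟩
  · exact_mod_cast Nat.gcd_pos_of_pos_left q hp'
  · exact_mod_cast Nat.gcd_dvd_left p q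
  · exact_mod_cast Nat.gcd_dvd_right p q
  · exact_mod_cast Nat.gcd_le_left q hp'
  · exact_mod_cast Nat.gcd_le_right p hq'

/-! ### Occurrences and cyclic shortest covers -/

/-- The factor of length `c` starting at `i` also occurs at `t`. -/
def Occ (X : ℤ → α) (i c t : ℤ) : Prop := ∀ h, 0 ≤ h → h < c → X (t + h) = X (i + h)

theorem Occ.two {i c t1 t2 : ℤ} (h1 : Occ X i c t1) (h2 : Occ X i c t2) {x y : ℤ}
    (hx1 : t1 ≤ x) (hx2 : x < t1 + c) (hy : y - x = t2 - t1) : X x = X y := by
  have e1 := h1 (x - t1) (by omega) (by omega)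
  have e2 := h2 (x - t1) (by omega) (by omega)
  rw [show t1 + (x - t1) = x by ring] at e1
  rw [show t2 + (x - t1) = y by omega] at e2
  rw [e1, e2]

theorem Occ.self (i c : ℤ) : Occ X i c i := fun _ _ _ => rfl

theorem Occ.per {i c t1 t2 : ℤ} (h1 : Occ X i c t1) (h2 : Occ X i c t2) (hlt : t1 < t2) :
    Per X i (i + c) (t2 - t1) := by
  intro x hx hx'
  rw [(Occ.self i c).two h2 (x := x) (y := t2 + (x - i)) hx (by omega) (by ring)]
  exact h1.two (Occ.self i c) (by omega) (by omega) (by ring)

/-- Periods on a sub-interval of an occurrence transfer to another occurrence. -/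
theorem Per.transfer {i c t1 t2 a b d : ℤ} (h : Per X a b d) (hd : 0 ≤ d) (h1 : Occ X i c t1)
    (h2 : Occ X i c t2) (ha : t1 ≤ a) (hb : b ≤ t1 + c) {a' b' : ℤ} (ha' : a' = a + (t2 - t1))
    (hb' : b' = b + (t2 - t1)) : Per X a' b' d := by
  intro x hx hx'
  rw [← h1.two h2 (x := x - (t2 - t1)) (y := x) (by omega) (by omega) (by ring)]
  rw [← h1.two h2 (x := x - (t2 - t1) + d) (y := x + d) (by omega) (by omega) (by ring)]
  exact h _ (by omega) (by omega)

/-- `c` is the length of the shortest cover of the cyclic shift starting at `i`, recorded by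
the properties that we use: the cover occurs at `i` and at `i - c`, its occurrences cover
everything, and it has no proper cover. -/
structure Good (X : ℤ → α) (c i : ℤ) : Prop where
  pos : 0 < c
  sq : Occ X i c (i - c)
  cov : ∀ x, ∃ t, t ≤ x ∧ x < t + c ∧ Occ X i c t
  sp : ∀ d, 0 < d → d < c → ¬ (∀ y, 0 ≤ y → y < c →
    ∃ t, 0 ≤ t ∧ t ≤ y ∧ y < t + d ∧ t + d ≤ c ∧ Occ X i d (i + t))

theorem Good.noSmall {c i d : ℤ} (hG : Good X c i) (hd : 0 < d) (hd2 : 2 * d ≤ c) :
    ¬ Per X i (i + c) d := by
  intro hP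
  refine hG.sp (c - d) (by omega) (by omega) ?_
  intro y hy hy'
  by_cases h : y < c - d
  · refine ⟨0, le_rfl, hy, by omega, by omega, ?_⟩
    rw [add_zero]; exact Occ.self _ _
  · refine ⟨d, by omega, by omega, by omega, by omega, ?_⟩
    intro h h0 h1
    exact (hP.app (x := i + h) (y := i + d + h) (by omega) (by omega) (by ring)).symm

theorem Good.gap {c i t1 t2 : ℤ} (hG : Good X c i) (h1 : Occ X i c t1) (h2 : Occ X i c t2)
    (hlt : t1 < t2) : c < 2 * (t2 - t1) := by
  by_contra hneg
  exact hG.noSmall (d := t2 - t1) (by omega) (by omega) (h1.per h2 hlt)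

/-- A word that is the concatenation of two `δ`-periodic words which agree in their first `δ`
and in their last `δ` letters has a proper cover. -/
theorem Good.noSplit {c i δ g : ℤ} (hG : Good X c i) (hδ : 0 < δ) (h1 : δ ≤ g) (h2 : g + δ ≤ c)
    (hu : Per X i (i + g) δ) (hw : Per X (i + g) (i + c) δ)
    (hpre : ∀ k, 0 ≤ k → k < δ → X (i + g + k) = X (i + k))
    (hsuf : ∀ k, 0 ≤ k → k < δ → X (i + g - δ + k) = X (i + c - δ + k)) : False := by
  have pre : ∀ h, 0 ≤ h → h < g → g + h < c → X (i + g + h) = X (i + h) := by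
    intro h h0 hg hc
    have r1 := Int.emod_nonneg h hδ.ne'
    have r2 := Int.emod_lt_of_pos h hδ
    have q1 := Int.emod_add_mul_ediv h δ
    have r3 : h % δ ≤ h := emod_le_self' h0 hδ
    rw [hu.congr hδ (x := i + h) (y := i + h % δ) (by omega) (by omega) (by omega) (by omega)
      ⟨-(h / δ), by linear_combination q1⟩]
    rw [hw.congr hδ (x := i + g + h) (y := i + g + h % δ) (by omega) (by omega) (by omega)
      (by omega) ⟨-(h / δ), by linear_combination q1⟩]
    exact hpre _ r1 r2
  have suf : ∀ h, 1 ≤ h → h ≤ g → h ≤ c - g → X (i + g - h) = X (i + c - h) := by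
    intro h h0 hg hc
    have r1 := Int.emod_nonneg (h - 1) hδ.ne'
    have r2 := Int.emod_lt_of_pos (h - 1) hδ
    have q1 := Int.emod_add_mul_ediv (h - 1) δ
    have r3 : (h - 1) % δ ≤ h - 1 := emod_le_self' (by omega) hδ
    rw [hu.congr hδ (x := i + g - h) (y := i + g - 1 - (h - 1) % δ) (by omega) (by omega)
      (by omega) (by omega) ⟨((h - 1) / δ), by linear_combination -q1⟩]
    rw [hw.congr hδ (x := i + c - h) (y := i + c - 1 - (h - 1) % δ) (by omega) (by omega)
      (by omega) (by omega) ⟨((h - 1) / δ), by linear_combination -q1⟩]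
    have := hsuf (δ - 1 - (h - 1) % δ) (by omega) (by omega)
    rw [show i + g - δ + (δ - 1 - (h - 1) % δ) = i + g - 1 - (h - 1) % δ by ring,
      show i + c - δ + (δ - 1 - (h - 1) % δ) = i + c - 1 - (h - 1) % δ by ring] at this
    exact this
  by_cases hm : g ≤ c - g
  · refine hG.sp g (by omega) (by omega) ?_
    intro y hy hy'
    by_cases c1 : y < g
    · refine ⟨0, le_rfl, hy, by omega, by omega, ?_⟩
      rw [add_zero]; exact Occ.self _ _
    by_cases c2 : c - g ≤ y
    · refine ⟨c - g, by omega, by omega, by omega, by omega, ?_⟩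
      intro h h0 h1
      have := suf (g - h) (by omega) (by omega) (by omega)
      rw [show i + g - (g - h) = i + h by ring, show i + c - (g - h) = i + (c - g) + h by ring]
        at this
      exact this.symm
    · have r1 := Int.emod_nonneg (y - g) hδ.ne'
      have r2 := Int.emod_lt_of_pos (y - g) hδ
      have q1 := Int.emod_add_mul_ediv (y - g) δ
      have r3 : (y - g) % δ ≤ y - g := emod_le_self' (by omega) hδ
      refine ⟨y - (y - g) % δ, by omega, by omega, by omega, by omega, ?_⟩
      intro h h0 h1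
      rw [← pre h h0 h1 (by omega)]
      refine (hw.congr hδ (by omega) (by omega) (by omega) (by omega) ?_).symm
      exact ⟨(y - g) / δ, by linear_combination -q1⟩
  · refine hG.sp (c - g) (by omega) (by omega) ?_
    intro y hy hy'
    by_cases c1 : g ≤ y
    · refine ⟨g, by omega, by omega, by omega, by omega, ?_⟩
      intro h h0 h1
      exact pre h h0 (by omega) (by omega)
    by_cases c2 : g - (c - g) ≤ y
    · refine ⟨g - (c - g), by omega, by omega, by omega, by omega, ?_⟩
      intro h h0 h1
      have := suf (c - g - h) (by omega) (by omega) (by omega)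
      rw [show i + g - (c - g - h) = i + (g - (c - g)) + h by ring,
        show i + c - (c - g - h) = i + g + h by ring] at this
      rw [this]
      exact pre h h0 (by omega) (by omega)
    · have r1 := Int.emod_nonneg y hδ.ne'
      have r2 := Int.emod_lt_of_pos y hδ
      have q1 := Int.emod_add_mul_ediv y δ
      have r3 : y % δ ≤ y := emod_le_self' hy hδ
      refine ⟨y - y % δ, by omega, by omega, by omega, by omega, ?_⟩
      intro h h0 h1
      refine (hu.congr hδ (by omega) (by omega) (by omega) (by omega) ?_).symm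
      exact ⟨y / δ, by linear_combination -q1⟩

/-! ### Two lengths of comparable size -/

/-- The main structural lemma for two cover lengths `c < c'` with `c' ≤ 3c/2`: inside the square
of the longer cover there are two occurrences of the shorter one at distance `g`, and the shorter
one has periods `g` and `c' - g`. -/
theorem pair {c i c' J : ℤ} (hC : Good X c i) (hD : Good X c' J) (h1 : c < c')
    (h2 : 2 * c' ≤ 3 * c) :
    ∃ s g, Occ X i c s ∧ Occ X i c (s + g) ∧ J - c' ≤ s ∧ s + g + c ≤ J + c' ∧ c < 2 * g ∧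
      2 * g < 2 * c' - c ∧ Per X i (i + c) g ∧ Per X i (i + c) (c' - g) := by
  have hc0 := hC.pos
  have sqD : ∀ x y, J - c' ≤ x → x < J → y = x + c' → X x = X y := fun x y hx hy hxy =>
    hD.sq.two (Occ.self J c') hx (by omega) (by omega)
  by_cases hA : ∃ t, J - c' ≤ t ∧ t ≤ J - c ∧ Occ X i c t
  · obtain ⟨t, ht1, ht2, ht⟩ := hA
    have ht' : Occ X i c (t + c') := fun h h0 h1 => by
      rw [← ht h h0 h1]
      exact (sqD (t + h) (t + c' + h) (by omega) (by omega) (by ring)).symm
    obtain ⟨t1, a1, a2, a3⟩ := hC.cov (t + c)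
    have g1 := hC.gap ht a3 (by omega)
    have g2 := hC.gap a3 ht' (by omega)
    refine ⟨t, t1 - t, ht, by rw [add_sub_cancel]; exact a3, ht1, by omega, g1, by omega,
      ht.per a3 (by omega), ?_⟩
    have := a3.per ht' (by omega)
    rw [show t + c' - t1 = c' - (t1 - t) by ring] at this
    exact this
  · have hB : ∀ t, Occ X i c t → J - c' ≤ t → t ≤ J - c → False := fun t h0 h1 h2 =>
      hA ⟨t, h1, h2, h0⟩
    have hB' : ∀ t, Occ X i c t → J ≤ t → t ≤ J + (c' - c) → False := by
      intro t h0 h1 h2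
      refine hB (t - c') ?_ (by omega) (by omega)
      intro h a0 a1
      rw [← h0 h a0 a1]
      exact sqD _ _ (by omega) (by omega) (by ring)
    obtain ⟨u, u1, u2, u3⟩ := hC.cov J
    have huJ : u < J := by
      by_contra hcon
      exact hB' u u3 (by omega) (by omega)
    obtain ⟨s1, ⟨hs1, os1⟩, hmin⟩ : ∃ s1, (J - c < s1 ∧ Occ X i c s1) ∧
        ∀ z, (J - c < z ∧ Occ X i c z) → s1 ≤ z :=
      Int.exists_least_of_bdd ⟨J - c, fun z hz => hz.1.le⟩ ⟨u, by omega, u3⟩
    have hs1J : s1 < J := lt_of_le_of_lt (hmin u ⟨by omega, u3⟩) huJ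
    obtain ⟨sm, m1, m2, m3⟩ := hC.cov (s1 - 1)
    have hsm : sm < J - c' := by
      by_contra hcon
      by_cases h : sm ≤ J - c
      · exact hB sm m3 (by omega) h
      · have := hmin sm ⟨by omega, m3⟩
        omega
    by_cases hB2 : ∃ s2, s1 < s2 ∧ s2 < J ∧ Occ X i c s2
    · obtain ⟨s2, b1, b2, b3⟩ := hB2
      have g1 := hC.gap os1 b3 b1
      have P1 : Per X i (i + c) (c' - (s2 - s1)) := by
        intro x hx hx'
        rw [(Occ.self i c).two os1 (x := x) (y := s1 + (x - i)) hx (by omega) (by ring)]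
        rw [sqD (s1 + (x - i)) (s1 + (x - i) + c') (by omega) (by omega) rfl]
        exact b3.two (Occ.self i c) (by omega) (by omega) (by ring)
      have g2 : c < 2 * (c' - (s2 - s1)) := by
        by_contra hneg
        exact hC.noSmall (by omega) (by omega) P1
      refine ⟨s1, s2 - s1, os1, by rw [add_sub_cancel]; exact b3, by omega, by omega, g1,
        by omega, os1.per b3 b1, P1⟩
    · exfalso
      obtain ⟨s2, b1, b2, b3⟩ := hC.cov (s1 + c)
      have hs2 : J ≤ s2 := by
        by_contra hcon
        exact hB2 ⟨s2, by omega, by omega, b3⟩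
      have hs2' : J + (c' - c) < s2 := by
        by_contra hcon
        exact hB' s2 b3 hs2 (by omega)
      have P1 : Per X s1 (s1 + J + c' - s2) (s1 + c' - s2) := by
        intro x hx hx'
        rw [sqD x (x + c') (by omega) (by omega) rfl]
        exact b3.two os1 (by omega) (by omega) (by ring)
      have P2 : Per X (s1 - sm + J - c') (s1 + c) (sm + c' - s1) := by
        intro x hx hx'
        rw [← sqD (x + (sm + c' - s1) - c') (x + (sm + c' - s1)) (by omega) (by omega) (by ring)]
        exact (m3.two os1 (by omega) (by omega) (by ring)).symm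
      obtain ⟨g, g0, gd1, gd2, gl1, gl2, hg⟩ := fineWilf' (p := s1 + c' - s2)
        (q := sm + c' - s1) (a := s1 - sm + J - c') (b := s1 + J + c' - s2)
        (by omega) (by omega) (P1.mono (by omega) le_rfl) (P2.mono le_rfl (by omega)) (by omega)
      have Q1 : Per X s1 (s1 + J + c' - s2) g :=
        P1.ext hg (by omega) g0 (by omega) (by omega) (by omega) gd1
      have Q2 : Per X (s1 - sm + J - c') (s1 + c) g :=
        P2.ext hg (by omega) g0 (by omega) (by omega) (by omega) gd2
      have Q3 : Per X s1 (s1 + c) g := Q1.union Q2 (by omega)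
      exact hC.noSmall g0 (by omega)
        (Q3.transfer g0.le os1 (Occ.self i c) le_rfl le_rfl (by ring) (by ring))

theorem pair_ne {c i c' J s g : ℤ} (hD : Good X c' J) (h1 : c < c')
    (h2 : 2 * c' ≤ 3 * c) (o1 : Occ X i c s) (o2 : Occ X i c (s + g)) (hs : J - c' ≤ s)
    (hs' : s + g + c ≤ J + c') : 2 * g ≠ c' := by
  intro hg
  have hc0 := hD.pos
  have sqD : ∀ x y, J - c' ≤ x → x < J → y = x + c' → X x = X y := fun x y hx hy hxy =>
    hD.sq.two (Occ.self J c') hx (by omega) (by omega)
  refine hD.noSmall (d := g) (by omega) (by omega) ?_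
  intro x hx hx'
  by_cases c1 : s ≤ x - c'
  · rw [← sqD (x - c') x (by omega) (by omega) (by ring),
      ← sqD (x - g) (x + g) (by omega) (by omega) (by omega)]
    exact o1.two o2 c1 (by omega) (by omega)
  by_cases c2 : s ≤ x - g
  · rw [← sqD (x - g) (x + g) (by omega) (by omega) (by omega)]
    exact (o1.two o2 c2 (by omega) (by omega)).symm
  · exact o1.two o2 (by omega) (by omega) (by omega)

theorem Per.suffix {a b p q : ℤ} (hP : Per X a b p) (hQ : Per X a b q) (hp : 0 ≤ p)
    (hpq : p ≤ q) : Per X a (b - p) (q - p) ∧ Per X (a + p) b (q - p) := by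
  constructor
  · intro x hx hx'
    rw [hQ.app (x := x) (y := x + q) hx (by omega) rfl]
    exact (hP.app (x := x + (q - p)) (y := x + q) (by omega) (by omega) (by ring)).symm
  · intro x hx hx'
    rw [← hP.app (x := x - p) (y := x) (by omega) (by omega) (by ring)]
    exact hQ.app (by omega) (by omega) (by ring)

theorem Per.shiftUp {a b p d : ℤ} (hP : Per X a b p) (hd : 0 ≤ d) (h : Per X a (b - p) d) :
    Per X (a + p) b d := by
  intro x hx hx'
  rw [← hP.app (x := x - p) (y := x) (by omega) (by omega) (by ring),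
    ← hP.app (x := x - p + d) (y := x + d) (by omega) (by omega) (by ring)]
  exact h _ (by omega) (by omega)

theorem Per.shiftDown {a b p d : ℤ} (hP : Per X a b p) (hd : 0 ≤ d) (hp : 0 ≤ p)
    (h : Per X (a + p) b d) : Per X a (b - p) d := by
  intro x hx hx'
  rw [hP.app (x := x) (y := x + p) (by omega) (by omega) rfl,
    hP.app (x := x + d) (y := x + p + d) (by omega) (by omega) (by ring)]
  exact h _ (by omega) (by omega)

end Pool.Agent.CyCo
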