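import Pool.Agent.CyCo.Base

namespace Pool.Agent.CyCo

universe u

variable {α : Type u} {X : ℤ → α}

theorem defect {c i p δ : ℤ} (hδ : 0 < δ) (hp : p ≤ c) (hp0 : 0 ≤ p) (S : Per X i (i + c - p) δ)
    (T : Per X (i + p) (i + c) δ) {t : ℤ} (ht : Occ X i c t) {x : ℤ} (hx : t ≤ x)
    (hx' : x + δ < t + c) (hne : X x ≠ X (x + δ)) : t + c - p - δ ≤ x ∧ x < t + p := by
  constructor
  · by_contra hcon
    exact hne ((S.transfer hδ.le (Occ.self i c) ht le_rfl (by omega) (a' := t)
      (b' := t + c - p) (by ring) (by ring)).app hx (by omega) rfl)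
  · by_contra hcon
    exact hne ((T.transfer hδ.le (Occ.self i c) ht (by omega) le_rfl (a' := t + p)
      (b' := t + c) (by ring) (by ring)).app (by omega) hx' rfl)

theorem endgame {c i c' J s g p q δ E : ℤ} (hC : Good X c i) (hD : Good X c' J)
    (os : Occ X i c s) (osg : Occ X i c (s + g)) (hs : J - c' ≤ s) (hs' : s + g + c ≤ J + c')
    (hg1 : c < 2 * g) (hg2 : 2 * g < 2 * c' - c) (hcc : c < c') (hE : 8 * E ≤ c)
    (hE1 : c' < c + E) (hp1 : c < 2 * p) (hp2 : 2 * p < c + E) (hq1 : c' < 2 * q)
    (hq2 : 2 * q < c + E) (hδ0 : 0 < δ) (hδ1 : 2 * δ ≤ E)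
    (S1 : Per X i (i + c - p) δ) (T1 : Per X (i + p) (i + c) δ)
    (S2 : Per X J (J + c' - q) δ) (T2 : Per X (J + q) (J + c') δ) : False := by
  have sqD : ∀ x y, J - c' ≤ x → x < J → y = x + c' → X x = X y := fun x y hx hy hxy =>
    hD.sq.two (Occ.self J c') hx (by omega) (by omega)
  have defC : ∀ t, Occ X i c t → ∀ x, t ≤ x → x + δ < t + c → X x ≠ X (x + δ) →
      t + c - p - δ ≤ x ∧ x < t + p := fun t ht x hx hx' hne =>
    defect hδ0 (by linarith) (by linarith) S1 T1 ht hx hx' hne
  have defD1 : ∀ x, J - c' ≤ x → x + δ < J → X x ≠ X (x + δ) →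
      J - q - δ ≤ x ∧ x < J - c' + q := fun x hx hx' hne => by
    obtain ⟨w1, w2⟩ := defect hδ0 (by linarith) (by linarith) S2 T2 hD.sq hx (by linarith) hne
    exact ⟨by linarith, by linarith⟩
  have defD2 : ∀ x, J ≤ x → x + δ < J + c' → X x ≠ X (x + δ) →
      J + c' - q - δ ≤ x ∧ x < J + q := fun x hx hx' hne => by
    obtain ⟨w1, w2⟩ := defect hδ0 (by linarith) (by linarith) S2 T2 (Occ.self J c') hx
      (by linarith) hne
    exact ⟨by linarith, by linarith⟩
  have mv : ∀ t1 t2, Occ X i c t1 → Occ X i c t2 → ∀ x y, t1 ≤ x → x + δ < t1 + c →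
      y - x = t2 - t1 → X x ≠ X (x + δ) → X y ≠ X (y + δ) := by
    intro t1 t2 o1 o2 x y a1 a2 a3 hn e
    apply hn
    rw [o1.two o2 (x := x) (y := y) (by linarith) (by linarith) (by linarith),
      o1.two o2 (x := x + δ) (y := y + δ) (by linarith) (by linarith) (by linarith)]
    exact e
  obtain ⟨x0, b1, b2, b3⟩ : ∃ x, i ≤ x ∧ x + δ < i + c ∧ X x ≠ X (x + δ) := by
    by_contra hcon
    push Not at hcon
    exact hC.noSmall hδ0 (by linarith) (fun x hx hx' => hcon x hx hx')
  obtain ⟨x1, hx1⟩ : ∃ x1, x1 = x0 + (s - i) := ⟨_, rfl⟩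
  have n1 : X x1 ≠ X (x1 + δ) :=
    mv i s (Occ.self i c) os x0 x1 b1 b2 (by linarith) b3
  have n2 : X (x1 + g) ≠ X (x1 + g + δ) :=
    mv s (s + g) os osg x1 (x1 + g) (by linarith) (by linarith) (by ring) n1
  obtain ⟨z1, z1'⟩ := defC s os x1 (by linarith) (by linarith) n1
  by_cases z : x1 + δ < J
  · obtain ⟨z2, z2'⟩ := defD1 x1 (by linarith) z n1
    have a1 : J - δ ≤ x1 + g := by
      by_contra hcon
      push Not at hcon
      obtain ⟨w1, w2⟩ := defD1 (x1 + g) (by linarith) (by linarith) n2
      linarith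
    have a2 : x1 + g < J := by
      by_contra hcon
      push Not at hcon
      obtain ⟨w1, w2⟩ := defD2 (x1 + g) (by linarith) (by linarith) n2
      linarith
    have key : ∀ x, J - c' ≤ x → x + δ < J → X x ≠ X (x + δ) → J - δ ≤ x + g ∧ x + g < J := by
      intro x hx hx' hn
      obtain ⟨zx, zx'⟩ := defD1 x hx hx' hn
      have mx := mv s (s + g) os osg x (x + g) (by linarith) (by linarith) (by ring) hn
      constructor
      · by_contra hcon
        push Not at hcon
        obtain ⟨w1, w2⟩ := defD1 (x + g) (by linarith) (by linarith) mx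
        linarith
      · by_contra hcon
        push Not at hcon
        obtain ⟨w1, w2⟩ := defD2 (x + g) (by linarith) (by linarith) mx
        linarith
    refine hD.noSplit (g := c' - g) hδ0 (by linarith) (by linarith) ?_ ?_ ?_ ?_
    · intro x hx hx'
      by_contra hn
      obtain ⟨w1, w2⟩ := key (x - c') (by linarith) (by linarith) (by
        intro e
        apply hn
        rw [← sqD (x - c') x (by linarith) (by linarith) (by ring),
          ← sqD (x - c' + δ) (x + δ) (by linarith) (by linarith) (by ring)]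
        exact e)
      linarith
    · intro x hx hx'
      by_contra hn
      obtain ⟨w1, w2⟩ := key (x - c') (by linarith) (by linarith) (by
        intro e
        apply hn
        rw [← sqD (x - c') x (by linarith) (by linarith) (by ring),
          ← sqD (x - c' + δ) (x + δ) (by linarith) (by linarith) (by ring)]
        exact e)
      linarith
    · intro k hk hk'
      rw [← sqD (J - g + k) (J + (c' - g) + k) (by linarith) (by linarith) (by ring)]
      exact os.two osg (by linarith) (by linarith) (by ring)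
    · intro k hk hk'
      rw [← sqD (J - g - δ + k) (J + (c' - g) - δ + k) (by linarith) (by linarith) (by ring),
        ← sqD (J - δ + k) (J + c' - δ + k) (by linarith) (by linarith) (by ring)]
      exact os.two osg (by linarith) (by linarith) (by ring)
  · push Not at z
    have a2 : x1 < J := by
      by_contra hcon
      push Not at hcon
      obtain ⟨w1, w2⟩ := defD2 x1 (by linarith) (by linarith) n1
      linarith
    obtain ⟨z2, z2'⟩ := defD2 (x1 + g) (by linarith) (by linarith) n2
    have key : ∀ x, J ≤ x → x + δ < J + c' → X x ≠ X (x + δ) → J - δ ≤ x - g ∧ x - g < J := by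
      intro x hx hx' hn
      obtain ⟨zx, zx'⟩ := defD2 x hx hx' hn
      have mx := mv (s + g) s osg os x (x - g) (by linarith) (by linarith) (by ring) hn
      constructor
      · by_contra hcon
        push Not at hcon
        obtain ⟨w1, w2⟩ := defD1 (x - g) (by linarith) (by linarith) mx
        linarith
      · by_contra hcon
        push Not at hcon
        obtain ⟨w1, w2⟩ := defD2 (x - g) (by linarith) (by linarith) mx
        linarith
    refine hD.noSplit (g := g) hδ0 (by linarith) (by linarith) ?_ ?_ ?_ ?_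
    · intro x hx hx'
      by_contra hn
      obtain ⟨w1, w2⟩ := key x (by linarith) (by linarith) hn
      linarith
    · intro x hx hx'
      by_contra hn
      obtain ⟨w1, w2⟩ := key x (by linarith) (by linarith) hn
      linarith
    · intro k hk hk'
      exact (os.two osg (by linarith) (by linarith) (by ring)).symm
    · intro k hk hk'
      rw [← sqD (J - δ + k) (J + c' - δ + k) (by linarith) (by linarith) (by ring)]
      exact (os.two osg (by linarith) (by linarith) (by ring)).symm

/-- Three distinct shortest-cover lengths are never within a factor `9/8` of each other. -/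
theorem three {c i c' J c'' K : ℤ} (hC : Good X c i) (hD : Good X c' J) (hE : Good X c'' K)
    (h1 : c < c') (h2 : c' < c'') (h3 : 8 * (c'' - c) ≤ c) : False := by
  obtain ⟨s, g, os, osg, hs, hs', hg1, hg2, Pg, Pg'⟩ := pair hC hD h1 (by omega)
  obtain ⟨s2, g2, os2, osg2, hs2, hs2', hg21, hg22, Pg2, Pg2'⟩ := pair hD hE h2 (by omega)
  have hne := pair_ne hD h1 (by omega) os osg hs hs'
  have hne2 := pair_ne hE h2 (by omega) os2 osg2 hs2 hs2'
  obtain ⟨p, hp1, hp2, Pp, Pp'⟩ : ∃ p, c < 2 * p ∧ 2 * p < c' ∧ Per X i (i + c) p ∧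
      Per X i (i + c) (c' - p) := by
    by_cases h : 2 * g < c'
    · exact ⟨g, hg1, h, Pg, Pg'⟩
    · exact ⟨c' - g, by omega, by omega, Pg', by rw [sub_sub_cancel]; exact Pg⟩
  obtain ⟨q, hq1, hq2, Pq, Pq'⟩ : ∃ q, c' < 2 * q ∧ 2 * q < c'' ∧ Per X J (J + c') q ∧
      Per X J (J + c') (c'' - q) := by
    by_cases h : 2 * g2 < c''
    · exact ⟨g2, hg21, h, Pg2, Pg2'⟩
    · exact ⟨c'' - g2, by omega, by omega, Pg2', by rw [sub_sub_cancel]; exact Pg2⟩
  clear Pg Pg' Pg2 Pg2' hne hne2 hg21 hg22 hs2 hs2' os2 osg2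
  have R := (Pp.suffix Pp' (by omega) (by omega)).1
  have R' := Pq.suffix Pq' (by omega) (by omega)
  have RS : Per X s (s + c - p) (c' - p - p) :=
    R.transfer (by omega) (Occ.self i c) os le_rfl (by omega) (by ring) (by ring)
  have RD1 : Per X (J - c') (J - q) (c'' - q - q) :=
    R'.1.transfer (by omega) (Occ.self J c') hD.sq le_rfl (by omega) (by ring) (by ring)
  have RD2 : Per X (J - c' + q) J (c'' - q - q) :=
    R'.2.transfer (by omega) (Occ.self J c') hD.sq (by omega) le_rfl (by ring) (by ring)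
  obtain ⟨δ, hδ0, hδ1, hδ2, S1, S2⟩ : ∃ δ, 0 < δ ∧ δ ≤ c' - p - p ∧ δ ≤ c'' - q - q ∧
      Per X i (i + c - p) δ ∧ Per X J (J + c' - q) δ := by
    by_cases ha : 4 * (s - (J - c')) ≤ c
    · obtain ⟨δ, d0, dd1, dd2, dl1, dl2, hd⟩ := fineWilf' (p := c' - p - p) (q := c'' - q - q)
        (a := s) (b := min (s + c - p) (J - q)) (by omega) (by omega)
        (RS.mono le_rfl (min_le_left _ _)) (RD1.mono hs (min_le_right _ _)) (by omega)
      refine ⟨δ, d0, dl1, dl2, ?_, ?_⟩
      · exact (RS.ext hd (by omega) d0 le_rfl (min_le_left _ _) (by omega) dd1).transfer d0.le os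
          (Occ.self i c) le_rfl (by omega) (by ring) (by ring)
      · exact (RD1.ext hd (by omega) d0 hs (min_le_right _ _) (by omega) dd2).transfer d0.le
          hD.sq (Occ.self J c') le_rfl (by omega) (by ring) (by ring)
    · obtain ⟨δ, d0, dd1, dd2, dl1, dl2, hd⟩ := fineWilf' (p := c' - p - p) (q := c'' - q - q)
        (a := max s (J - c' + q)) (b := min (s + c - p) J) (by omega) (by omega)
        (RS.mono (le_max_left _ _) (min_le_left _ _))
        (RD2.mono (le_max_right _ _) (min_le_right _ _)) (by omega)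
      refine ⟨δ, d0, dl1, dl2, ?_, ?_⟩
      · exact (RS.ext hd (by omega) d0 (le_max_left _ _) (min_le_left _ _) (by omega)
          dd1).transfer d0.le os (Occ.self i c) le_rfl (by omega) (by ring) (by ring)
      · have := (RD2.ext hd (by omega) d0 (le_max_right _ _) (min_le_right _ _) (by omega)
          dd2).transfer d0.le hD.sq (Occ.self J c') (a' := J + q) (b' := J + c') (by omega)
          (by omega) (by ring) (by ring)
        exact Pq.shiftDown d0.le (by omega) this
  have T1 : Per X (i + p) (i + c) δ := Pp.shiftUp hδ0.le S1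
  have T2 : Per X (J + q) (J + c') δ := Pq.shiftUp hδ0.le S2
  exact endgame (E := c'' - c) hC hD os osg hs hs' hg1 hg2 h1 h3 (by omega) hp1 (by omega) hq1
    (by omega) hδ0 (by omega) S1 T1 S2 T2

end Pool.Agent.CyCo
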